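import Pool.Agent.H76.LieSpec

/-! Maps on complex matrices preserving the local spectrum of commutators at a fixed vector. -/

namespace Pool.Agent.Results.MP_add2b9_al.Classification

open Matrix Polynomial Pool.Agent.H76.LiePoly Pool.Agent.H76.LieGen Pool.Agent.H76.LieAlg
  Pool.Agent.H76.LieSpec

/-- The local spectrum of `T` at `x`: the eigenvalues `c` of `T` such that, writing
`x = ∑ μ, y μ` with `y μ ∈ ker (T - μ I)^n` (finitely many nonzero terms), `y c ≠ 0`. -/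
def locSpec {n : ℕ} (T : Matrix (Fin n) (Fin n) ℂ) (x : Fin n → ℂ) : Set ℂ :=
  {c | c ∈ spectrum ℂ T ∧ ∃ y : ℂ →₀ (Fin n → ℂ),
    (∀ μ, (T - μ • (1 : Matrix (Fin n) (Fin n) ℂ)) ^ n *ᵥ y μ = 0) ∧
    (y.sum fun _ v => v) = x ∧ y c ≠ 0}

/-- The set `E_{x₀}`. -/
def InE {n : ℕ} (x₀ : Fin n → ℂ) (T : Matrix (Fin n) (Fin n) ℂ) : Prop :=
  (∃ c : ℂ, T *ᵥ x₀ = c • x₀) ∧ ∃ r s : ℂ, s ≠ 0 ∧
    (T - r • (1 : Matrix (Fin n) (Fin n) ℂ)) ^ 2 = s • (1 : Matrix (Fin n) (Fin n) ℂ)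

variable {n : ℕ}

lemma aeval_lin (T : Matrix (Fin n) (Fin n) ℂ) (μ : ℂ) (k : ℕ) :
    aeval T ((X - C μ) ^ k) = (T - μ • (1 : Matrix (Fin n) (Fin n) ℂ)) ^ k := by
  simp [Algebra.algebraMap_eq_smul_one]

lemma mem_locSpec (T : Matrix (Fin n) (Fin n) ℂ) (x : Fin n → ℂ) (c : ℂ) :
    c ∈ locSpec T x ↔ LS T x c := by
  classical
  constructor
  · rintro ⟨-, y, hy, hx, hc⟩ p hp
    by_contra hne
    apply hc
    let q : ℂ[X] := ∏ μ ∈ y.support.erase c, (X - C μ) ^ n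
    have h1 : ∀ μ ∈ y.support.erase c, aeval T (p * q) *ᵥ y μ = 0 := by
      intro μ hμ
      obtain ⟨r, hr⟩ : (X - C μ) ^ n ∣ p * q := (Finset.dvd_prod_of_mem _ hμ).mul_left _
      rw [hr, mul_comm, map_mul, ← mulVec_mulVec, aeval_lin, hy, mulVec_zero]
    have h2 : aeval T (p * q) *ᵥ x = 0 := by
      rw [mul_comm, map_mul, ← mulVec_mulVec, hp, mulVec_zero]
    have h3 : aeval T (p * q) *ᵥ y c = 0 := by
      by_cases hcs : c ∈ y.support
      · rw [← hx, Finsupp.sum, ← Finset.add_sum_erase _ _ hcs, mulVec_add, mulVec_sum,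
          Finset.sum_eq_zero h1, add_zero] at h2
        exact h2
      · rw [Finsupp.notMem_support_iff.1 hcs, mulVec_zero]
    have h4 : IsCoprime (p * q) ((X - C c) ^ n) := by
      refine IsCoprime.pow_right ?_
      refine ((irreducible_X_sub_C c).coprime_iff_not_dvd.2 ?_).symm
      rw [dvd_iff_isRoot, IsRoot.def, eval_mul, eval_prod]
      refine mul_ne_zero hne (Finset.prod_ne_zero_iff.2 fun μ hμ => ?_)
      simp only [eval_pow, eval_sub, eval_X, eval_C]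
      exact pow_ne_zero _ (sub_ne_zero.2 (Finset.ne_of_mem_erase hμ).symm)
    obtain ⟨a, b, hab⟩ := h4
    have := congrArg (fun r => aeval T r *ᵥ y c) hab
    simp only [map_add, map_mul (aeval T) a, map_mul (aeval T) b, add_mulVec, ← mulVec_mulVec,
      h3, aeval_lin, hy, mulVec_zero, map_one, one_mulVec, add_zero] at this
    exact this.symm
  · intro h
    refine ⟨h.mem_spectrum, ?_⟩
    have h1 : x ∈ ⨆ μ, Module.End.maxGenEigenspace (Matrix.toLin' T) μ := by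
      rw [Module.End.iSup_maxGenEigenspace_eq_top]; trivial
    obtain ⟨y, hy, hx⟩ := (Submodule.mem_iSup_iff_exists_finsupp _ _).1 h1
    have hy' : ∀ μ, (T - μ • (1 : Matrix (Fin n) (Fin n) ℂ)) ^ n *ᵥ y μ = 0 := by
      intro μ
      have := hy μ
      rw [Module.End.maxGenEigenspace_eq_genEigenspace_finrank, Module.End.mem_genEigenspace_nat,
        LinearMap.mem_ker, Module.finrank_fin_fun] at this
      rw [← Matrix.toLin'_apply, Matrix.toLin'_pow, map_sub, map_smul, Matrix.toLin'_one]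
      exact this
    refine ⟨y, hy', hx, fun hc => ?_⟩
    have h2 := h (∏ μ ∈ y.support, (X - C μ) ^ n) (by
      rw [← hx, Finsupp.sum, mulVec_sum]
      refine Finset.sum_eq_zero fun μ hμ => ?_
      obtain ⟨r, hr⟩ : (X - C μ) ^ n ∣ ∏ μ ∈ y.support, (X - C μ) ^ n :=
        Finset.dvd_prod_of_mem _ hμ
      rw [hr, mul_comm, map_mul, ← mulVec_mulVec, aeval_lin, hy', mulVec_zero])
    rw [eval_prod, Finset.prod_eq_zero_iff] at h2
    obtain ⟨μ, hμ, h3⟩ := h2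
    simp only [eval_pow, eval_sub, eval_X, eval_C] at h3
    rw [← sub_eq_zero.1 (pow_eq_zero_iff'.1 h3).1] at hμ
    exact Finsupp.mem_support_iff.1 hμ hc

lemma exists_dot_one {x : Fin n → ℂ} (hx : x ≠ 0) : ∃ g : Fin n → ℂ, g ⬝ᵥ x = 1 := by
  obtain ⟨g, hg, -⟩ := exists_dot ⊥ (x := x) (by simpa using hx)
  exact ⟨g, hg⟩

lemma exists_dot_pair {x y : Fin n → ℂ} (h : ¬ ∃ c : ℂ, y = c • x) :
    ∃ f : Fin n → ℂ, f ⬝ᵥ x = 0 ∧ f ⬝ᵥ y = 1 := by
  obtain ⟨f, h1, h2⟩ := exists_dot (Submodule.span ℂ {x}) (x := y) fun hy => by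
    obtain ⟨c, hc⟩ := Submodule.mem_span_singleton.1 hy
    exact h ⟨c, hc.symm⟩
  exact ⟨f, h2 x (Submodule.mem_span_singleton_self x), h1⟩

/-- Krylov matrix. -/
def kry (Z : Matrix (Fin n) (Fin n) ℂ) (x : Fin n → ℂ) : Matrix (Fin n) (Fin n) ℂ :=
  of fun i j => (Z ^ (j : ℕ) *ᵥ x) i

lemma LS_of_kry {Z : Matrix (Fin n) (Fin n) ℂ} {x : Fin n → ℂ} (h : (kry Z x).det ≠ 0) {c : ℂ}
    (hc : c ∈ spectrum ℂ Z) : LS Z x c := by
  rw [← spec_transpose] at hc
  obtain ⟨f, hf0, hf⟩ := exists_eigvec hc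
  rw [mulVec_transpose] at hf
  refine LS_of_left hf fun h0 => h (Matrix.exists_vecMul_eq_zero_iff.1 ⟨f, hf0, ?_⟩)
  ext j
  have := vecMul_aeval_eig hf (X ^ (j : ℕ))
  rw [map_pow, aeval_X] at this
  change f ⬝ᵥ (Z ^ (j : ℕ) *ᵥ x) = 0
  rw [dotProduct_mulVec, this, smul_dotProduct, h0, smul_zero]

lemma exists_kry [Nonempty (Fin n)] {x : Fin n → ℂ} (hx : x ≠ 0) :
    ∃ T S, (kry (br T S) x).det ≠ 0 := by
  let d0 : Fin n → ℂ := fun i => ((i : ℕ) : ℂ)
  let d : Fin n → ℂ := fun i => d0 i - (n : ℂ)⁻¹ * ∑ i, d0 i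
  have hn : (n : ℂ) ≠ 0 := by simpa using card_ne (n := Fin n)
  have hd : Function.Injective d := fun i j hij => by
    have h1 : d0 i = d0 j := by simpa [d] using hij
    exact Fin.ext (by simpa [d0] using h1)
  obtain ⟨T, S, hTS⟩ := diag_comm d (by
    simp only [d, Finset.sum_sub_distrib, Finset.sum_const, Finset.card_univ, Fintype.card_fin,
      nsmul_eq_mul]
    field_simp
    ring)
  obtain ⟨i, hi⟩ := Function.ne_iff.1 hx
  let o : Fin n → ℂ := fun _ => 1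
  let e : Fin n → ℂ := Pi.single i 1
  let P : Matrix (Fin n) (Fin n) ℂ := 1 + vecMulVec (x - o) e
  let Q : Matrix (Fin n) (Fin n) ℂ := 1 - (x i)⁻¹ • vecMulVec (x - o) e
  have hi' : x i ≠ 0 := hi
  have hQP : Q * P = 1 := by
    refine eq_of_mulVec fun v => ?_
    simp only [P, Q, e, ← mulVec_mulVec, add_mulVec, sub_mulVec, one_mulVec, smul_mulVec,
      vmv_mulVec, single_dotProduct, one_mul, Pi.add_apply, Pi.smul_apply, Pi.sub_apply, o,
      smul_eq_mul, smul_smul]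
    rw [show (x i)⁻¹ * (v i + v i * (x i - 1)) = v i by field_simp; ring]
    simp
  have hPQ : P * Q = 1 := mul_eq_one_comm.1 hQP
  have hP : P *ᵥ o = x := by
    simp [P, e, add_mulVec, vmv_mulVec, o]
  refine ⟨P * T * Q, P * S * Q, ?_⟩
  have : kry (br (P * T * Q) (P * S * Q)) x = P * vandermonde d := by
    ext a j
    have h1 := aeval_conj hPQ hQP (diagonal d) (X ^ (j : ℕ))
    rw [map_pow, map_pow, aeval_X, aeval_X] at h1
    rw [kry, of_apply, br_conj hQP, hTS, h1, ← hP, mulVec_mulVec, Matrix.mul_assoc, hQP,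
      Matrix.mul_one, ← mulVec_mulVec, diagonal_pow]
    simp [mulVec, dotProduct, Matrix.mul_apply, vandermonde, o, diagonal]
  rw [this, det_mul]
  exact mul_ne_zero (Matrix.isUnit_det_of_left_inverse hQP).ne_zero
    (det_vandermonde_ne_zero_iff.2 hd)

lemma LS_sign {e : ℂ} (he : e * e = 1) {Z : Matrix (Fin n) (Fin n) ℂ} {x : Fin n → ℂ} {c : ℂ}
    (hc : LS (e • Z) x c) : c ∈ spectrum ℂ Z ∨ -c ∈ spectrum ℂ Z := by
  rcases mul_self_eq_one_iff.1 he with rfl | rfl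
  · left; simpa using hc.mem_spectrum
  · right; rw [← mem_spec_neg]; simpa using hc.mem_spectrum

lemma LS_unsign {e : ℂ} (he : e * e = 1) {Z : Matrix (Fin n) (Fin n) ℂ} {x : Fin n → ℂ} {c : ℂ}
    (hc : LS Z x c) : LS (e • Z) x c ∨ LS (e • Z) x (-c) := by
  rcases mul_self_eq_one_iff.1 he with rfl | rfl
  · left; simpa using hc
  · right; simpa using hc.neg

lemma br_right (X S : Matrix (Fin n) (Fin n) ℂ) (e c : ℂ) :
    br X (e • S + c • 1) = e • br X S := by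
  rw [br_add_smul_one_right, ← one_smul ℂ X, br_smul_smul, one_mul, one_smul]

lemma pw1 [Nontrivial (Fin n)] {x0 y0 : Fin n → ℂ} (hx : x0 ≠ 0) (hy : y0 ≠ 0)
    (ψ : Matrix (Fin n) (Fin n) ℂ → Matrix (Fin n) (Fin n) ℂ)
    (h : ∀ T S c, LS (br (ψ T) (ψ S)) y0 c ↔ LS (br T S) x0 c)
    (hG : Gen (fun S => ∃ e c : ℂ, e * e = 1 ∧ ψ S = e • S + c • (1 : Matrix _ _ ℂ))) (T) :
    ∃ e c : ℂ, e * e = 1 ∧ ψ T = e • T + c • (1 : Matrix _ _ ℂ) := by
  refine pointwise2 (pointwise hx (hG.mono ?_)) (pointwise hy (hG.mono ?_))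
  · rintro S ⟨e, c, he, hS⟩ d hd
    rw [← h, hS, br_right] at hd
    exact LS_sign he hd
  · rintro S ⟨e, c, he, hS⟩ d hd
    rcases LS_unsign he hd with h1 | h1
    · rw [← br_right _ _ _ c, ← hS, h] at h1
      exact Or.inl h1.mem_spectrum
    · rw [← br_right _ _ _ c, ← hS, h] at h1
      exact Or.inr h1.mem_spectrum

lemma pw2 [Nontrivial (Fin n)] {x0 y0 : Fin n → ℂ} (hx : x0 ≠ 0) (hy : y0 ≠ 0)
    (ψ : Matrix (Fin n) (Fin n) ℂ → Matrix (Fin n) (Fin n) ℂ)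
    (h : ∀ T S c, LS (br (ψ T) (ψ S))ᵀ y0 c ↔ LS (br T S) x0 c)
    (hG : Gen (fun S => ∃ e c : ℂ, e * e = 1 ∧ ψ S = e • S + c • (1 : Matrix _ _ ℂ))) (T) :
    ∃ e c : ℂ, e * e = 1 ∧ ψ T = e • T + c • (1 : Matrix _ _ ℂ) := by
  refine pointwise2 (pointwise hx (hG.mono ?_)) ?_
  · rintro S ⟨e, c, he, hS⟩ d hd
    rw [← h, hS, br_right, transpose_smul] at hd
    simpa only [spec_transpose] using LS_sign he hd
  · have a1 : ∀ X S : Matrix (Fin n) (Fin n) ℂ, br Xᵀ S = (br X (-Sᵀ))ᵀ := by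
      intro X S; simp [br]; abel
    have := pointwise (T := (ψ T)ᵀ) (T' := Tᵀ) hy ((hG.comp
      (-(Matrix.transposeLinearEquiv (Fin n) (Fin n) ℂ ℂ : Matrix _ _ ℂ →ₗ[ℂ] Matrix _ _ ℂ))
      fun S => ⟨-Sᵀ, by ext i j; simp⟩).mono (by
        rintro S ⟨e, c, he, hS⟩ d hd
        change ψ (-Sᵀ) = e • (-Sᵀ) + c • 1 at hS
        rw [a1] at hd
        rw [a1, spec_transpose]
        rcases LS_unsign he hd with h1 | h1
        · rw [← transpose_smul, ← br_right _ _ _ c, ← hS, h] at h1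
          exact Or.inl h1.mem_spectrum
        · rw [← transpose_smul, ← br_right _ _ _ c, ← hS, h] at h1
          exact Or.inr h1.mem_spectrum))
    rcases this with ⟨c, hc⟩ | ⟨e, c, he, hc⟩
    · exact Or.inl ⟨c, by simpa using congrArg transpose hc⟩
    · exact Or.inr ⟨e, c, he, by simpa using congrArg transpose hc⟩

lemma parallel {x0 y0 : Fin n → ℂ} (hx : x0 ≠ 0)
    (h : ∀ T S : Matrix (Fin n) (Fin n) ℂ, ∃ e : ℂ,
      ∀ c, LS (e • br T S) y0 c ↔ LS (br T S) x0 c) : ∃ k : ℂ, y0 = k • x0 := by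
  by_contra hne
  obtain ⟨f, hf0, hf1⟩ := exists_dot_pair hne
  obtain ⟨g1, hg1⟩ := exists_dot_one hx
  set g := g1 + (1 - g1 ⬝ᵥ y0) • f with hg
  have g0 : g ⬝ᵥ x0 = 1 := by simp [hg, hg1, hf0]
  have g2 : g ⬝ᵥ y0 = 1 := by simp [hg, hf1]
  obtain ⟨e, he⟩ := h (vecMulVec y0 g) (vecMulVec x0 f)
  have hZ : br (vecMulVec y0 g) (vecMulVec x0 f) = vecMulVec y0 f - vecMulVec x0 g := by
    rw [br_rank_one, vmv_mulVec, vecMul_vmv, g0, hf1, one_smul, one_smul]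
  rw [hZ] at he
  have a1 : (vecMulVec y0 f - vecMulVec x0 g) *ᵥ x0 = (-1 : ℂ) • x0 := by
    simp [sub_mulVec, vmv_mulVec, hf0, g0]
  have a2 := (LS_eig a1 hx _).1 ((he e).1 (LS_of_left (f := f) (by
    simp [vecMul_smul, vecMul_sub, vecMul_vmv, hf0, hf1]) (by simp [hf1])))
  have a3 := (LS_eig a1 hx _).1 ((he (-e)).1 (LS_of_left (f := f - (2 : ℂ) • g) (by
    simp only [vecMul_smul, vecMul_sub, vecMul_vmv, sub_dotProduct, smul_dotProduct, hf0, hf1, g0,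
      g2, smul_eq_mul]
    module) (by simp [hf1, g2]; norm_num)))
  rw [a2] at a3
  norm_num at a3

lemma no_transpose [Nontrivial (Fin n)] {x0 y0 : Fin n → ℂ} (hx : x0 ≠ 0) (hy : y0 ≠ 0)
    (ξ : Matrix (Fin n) (Fin n) ℂ → ℂ) (hξ : ∀ T, ξ T * ξ T = 1)
    (h : ∀ T S c, LS ((ξ T * ξ S) • (br T S)ᵀ) y0 c ↔ LS (br T S) x0 c) : False := by
  obtain ⟨g1, hg1⟩ := exists_dot_one hx
  by_cases hk : y0 ⬝ᵥ x0 = 0
  · obtain ⟨u, hu⟩ := exists_dot_one hy
    rw [dotProduct_comm] at hu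
    set T := vecMulVec u g1
    set S := vecMulVec x0 y0 with hS
    have key : ∀ T' S', br T' S' = br T S → ξ T' * ξ S' = -1 := by
      intro T' S' hb
      have h1 := h T' S'
      rw [hb, hS, br_rank_one, vmv_mulVec, vecMul_vmv, hg1, hu, one_smul, one_smul] at h1
      refine (LS_eig (c := -1) (by simp [sub_mulVec, vmv_mulVec, hk, hg1]) hx _).1
        ((h1 _).1 ((LS_eig ?_ hy _).2 rfl))
      rw [smul_mulVec, mulVec_transpose]
      simp [vecMul_sub, vecMul_vmv, hu, hk]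
    have k1 := key T S rfl
    have k2 := key (T + S) S (by simp [br, add_mul, mul_add])
    have k3 := key T (T + S) (by simp [br, add_mul, mul_add])
    have : (2 : ℂ) = 0 := by
      linear_combination (ξ (T + S) * ξ S * (ξ T * ξ (T + S))) * k1 - (ξ T * ξ (T + S)) * k2 + k3
        - (ξ S * ξ S * (ξ (T + S) * ξ (T + S))) * hξ T - (ξ (T + S) * ξ (T + S)) * hξ S
        - hξ (T + S)
    norm_num at this
  · obtain ⟨w, hw⟩ : ∃ w : Fin n → ℂ, ¬ ∃ c : ℂ, w = c • x0 := by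
      obtain ⟨i, hi⟩ := Function.ne_iff.1 hx
      obtain ⟨j, hj⟩ := exists_ne i
      refine ⟨Pi.single j 1, ?_⟩
      rintro ⟨c, hc⟩
      have h1 := congrFun hc i
      have h2 := congrFun hc j
      simp [hj.symm] at h1 h2
      rcases h1 with h1 | h1
      · simp [h1] at h2
      · exact hi h1
    obtain ⟨f, hf0, hf1⟩ := exists_dot_pair hw
    set g := g1 + (2 * (y0 ⬝ᵥ w) / (y0 ⬝ᵥ x0) - g1 ⬝ᵥ w + 1) • f with hg
    have g0 : g ⬝ᵥ x0 = 1 := by simp [hg, hg1, hf0]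
    have g2 : g ⬝ᵥ w = 2 * (y0 ⬝ᵥ w) / (y0 ⬝ᵥ x0) + 1 := by simp [hg, hf1]; ring
    have he := h (vecMulVec w g) (vecMulVec x0 f)
    generalize ξ (vecMulVec w g) * ξ (vecMulVec x0 f) = e at he
    have hZ : br (vecMulVec w g) (vecMulVec x0 f) = vecMulVec w f - vecMulVec x0 g := by
      rw [br_rank_one, vmv_mulVec, vecMul_vmv, g0, hf1, one_smul, one_smul]
    rw [hZ] at he
    have a1 : (vecMulVec w f - vecMulVec x0 g) *ᵥ x0 = (-1 : ℂ) • x0 := by
      simp [sub_mulVec, vmv_mulVec, hf0, g0]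
    have a2 := (LS_eig a1 hx _).1 ((he (-e)).1 (LS_of_left (f := x0) (by
      rw [vecMul_smul, vecMul_transpose, a1]; simp) (by rwa [dotProduct_comm])))
    have a3 := (LS_eig a1 hx _).1 ((he e).1 (LS_of_left (f := (2 : ℂ) • w - (g ⬝ᵥ w) • x0) (by
      rw [vecMul_smul, vecMul_transpose]
      simp only [sub_mulVec, vmv_mulVec, dotProduct_sub, dotProduct_smul, hf0, hf1, g0,
        smul_eq_mul]
      module) (by
      rw [dotProduct_comm, dotProduct_sub, dotProduct_smul, dotProduct_smul, g2, smul_eq_mul,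
        smul_eq_mul]
      field_simp
      simpa using hk)))
    rw [a3] at a2
    norm_num at a2

lemma exists_w {N : Matrix (Fin n) (Fin n) ℂ} (h0 : ¬ ∃ a : ℂ, a ≠ 0 ∧ N * N = a • N) :
    ∃ w, ¬ ∃ b : ℂ, N *ᵥ w = b • (N *ᵥ (N *ᵥ w)) := by
  by_contra hc
  push Not at hc
  have h1 : ∀ w, N *ᵥ w ≠ 0 → ∃ a : ℂ, a ≠ 0 ∧ N *ᵥ (N *ᵥ w) = a • (N *ᵥ w) := by
    intro w hw
    obtain ⟨b, hb⟩ := hc w
    have hb0 : b ≠ 0 := by rintro rfl; exact hw (by simpa using hb)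
    refine ⟨b⁻¹, inv_ne_zero hb0, ?_⟩
    conv_rhs => rw [hb, smul_smul, inv_mul_cancel₀ hb0, one_smul]
  apply h0
  by_cases hN : ∀ w, N *ᵥ w = 0
  · exact ⟨1, one_ne_zero, eq_of_mulVec fun v => by simp [← mulVec_mulVec, hN]⟩
  push Not at hN
  obtain ⟨u, hu⟩ := hN
  obtain ⟨a, ha0, ha⟩ := h1 u hu
  refine ⟨a, ha0, eq_of_mulVec fun v => ?_⟩
  rw [← mulVec_mulVec, smul_mulVec]
  by_cases hv : N *ᵥ v = 0
  · simp [hv]
  obtain ⟨b, -, hb⟩ := h1 v hv
  by_cases huv : N *ᵥ (u + v) = 0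
  · have : N *ᵥ v = -(N *ᵥ u) := by rw [mulVec_add] at huv; exact eq_neg_of_add_eq_zero_right huv
    rw [this, mulVec_neg, ha, smul_neg]
  obtain ⟨c, -, hc⟩ := h1 _ huv
  simp only [mulVec_add, ha, hb] at hc
  have e1 := congrArg (N *ᵥ ·) hc
  simp only [mulVec_add, mulVec_smul, ha, hb] at e1
  have e2 : ((a - c) * (a - b)) • (N *ᵥ u) = 0 := by
    linear_combination (norm := module) e1 - b • hc
  have e3 : ((b - c) * (b - a)) • (N *ᵥ v) = 0 := by
    linear_combination (norm := module) e1 - a • hc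
  have e4 := (smul_eq_zero.1 e2).resolve_right hu
  have e5 := (smul_eq_zero.1 e3).resolve_right hv
  have : a = b := by
    by_contra hab
    have f1 := (mul_eq_zero.1 e4).resolve_right (sub_ne_zero.2 hab)
    have f2 := (mul_eq_zero.1 e5).resolve_right (sub_ne_zero.2 (Ne.symm hab))
    exact hab (by linear_combination f1 - f2)
  rw [hb, this]

lemma const_off_E {x0 : Fin n → ℂ} (hx : x0 ≠ 0)
    (ξ : Matrix (Fin n) (Fin n) ℂ → ℂ) (hξ : ∀ T, ξ T * ξ T = 1)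
    (h : ∀ T S c, LS ((ξ T * ξ S) • br T S) x0 c ↔ LS (br T S) x0 c) (T T')
    (hT : ¬ InE x0 T) (hT' : ¬ InE x0 T') : ξ T = ξ T' := by
  have sens : ∀ T S c, LS (br T S) x0 c → ¬ LS (br T S) x0 (-c) → ξ T = ξ S := by
    intro T S c h1 h2
    by_contra hne
    have : ξ T * ξ S = -1 := by
      rcases mul_self_eq_one_iff.1 (hξ T) with b1 | b1 <;>
        rcases mul_self_eq_one_iff.1 (hξ S) with b2 | b2 <;> simp_all
    rw [← h, this, neg_smul, one_smul, LS_neg] at h1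
    exact h2 h1
  have sens' : ∀ T S (c : ℂ), c ≠ 0 → br T S *ᵥ x0 = c • x0 → ξ T = ξ S := by
    intro T S c hc h1
    refine sens T S c ((LS_eig h1 hx _).2 rfl) fun h2 => hc ?_
    linear_combination (-1 / 2 : ℂ) * (LS_eig h1 hx _).1 h2
  have hub : ∀ T f, f ⬝ᵥ x0 = 0 → f ⬝ᵥ T *ᵥ x0 ≠ 0 → ξ T = ξ (vecMulVec x0 f) := by
    intro T f h0 h1
    refine sens' _ _ (-(f ⬝ᵥ T *ᵥ x0)) (neg_ne_zero.2 h1) ?_
    simp [br_rank_one, sub_mulVec, vmv_mulVec, h0, dotProduct_mulVec]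
  have typeI : ∀ T T' : Matrix (Fin n) (Fin n) ℂ, (¬ ∃ c : ℂ, T *ᵥ x0 = c • x0) →
      (¬ ∃ c : ℂ, T' *ᵥ x0 = c • x0) → ξ T = ξ T' := by
    intro T T' h1 h2
    obtain ⟨f, hf0, hf1⟩ := exists_dot_pair h1
    obtain ⟨g, hg0, hg1⟩ := exists_dot_pair h2
    by_cases a1 : f ⬝ᵥ T' *ᵥ x0 = 0
    · by_cases a2 : g ⬝ᵥ T *ᵥ x0 = 0
      · rw [hub T (f + g) (by simp [hf0, hg0]) (by simp [hf1, a2]),
          hub T' (f + g) (by simp [hf0, hg0]) (by simp [hg1, a1])]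
      · rw [hub T g hg0 a2, hub T' g hg0 (by simp [hg1])]
    · rw [hub T f hf0 (by simp [hf1]), hub T' f hf0 a1]
  have typeII : ∀ T : Matrix (Fin n) (Fin n) ℂ, ¬ InE x0 T →
      ∃ S : Matrix (Fin n) (Fin n) ℂ, (¬ ∃ c : ℂ, S *ᵥ x0 = c • x0) ∧ ξ T = ξ S := by
    intro T hT
    by_cases h1 : ∃ c : ℂ, T *ᵥ x0 = c • x0
    swap
    · exact ⟨T, h1, rfl⟩
    obtain ⟨c, hc⟩ := h1
    set N := T - c • (1 : Matrix (Fin n) (Fin n) ℂ) with hN
    have hN0 : N *ᵥ x0 = 0 := by rw [hN, sub_mulVec, hc, smul_mulVec, one_mulVec, sub_self]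
    have hZ : ∀ S, br T S = br N S := fun S => by
      rw [← br_add_smul_one_left N S c, hN, sub_add_cancel]
    have npar : ∀ S : Matrix (Fin n) (Fin n) ℂ, N *ᵥ (S *ᵥ x0) ≠ 0 →
        ¬ ∃ c : ℂ, S *ᵥ x0 = c • x0 := by
      rintro S h1 ⟨k, hk⟩
      exact h1 (by rw [hk, mulVec_smul, hN0, smul_zero])
    by_cases h2 : x0 ∈ LinearMap.range (Matrix.toLin' N)
    · obtain ⟨y, hy⟩ := h2
      rw [Matrix.toLin'_apply] at hy
      obtain ⟨g, hg⟩ := exists_dot_one hx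
      refine ⟨vecMulVec y g, npar _ (by rwa [vmv_mulVec, hg, one_smul, hy]), sens' _ _ 1
        one_ne_zero ?_⟩
      rw [hZ, br, sub_mulVec, ← mulVec_mulVec, ← mulVec_mulVec, hN0, vmv_mulVec, hg, one_smul, hy]
      simp
    · obtain ⟨w, hw⟩ := exists_w (N := N) (by
        rintro ⟨a, ha0, ha⟩
        refine hT ⟨⟨c, hc⟩, c + a / 2, (a / 2) ^ 2, by simpa using ha0, ?_⟩
        rw [show T - (c + a / 2) • (1 : Matrix (Fin n) (Fin n) ℂ) = N - (a / 2) • 1 by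
          rw [hN]; module]
        simp only [pow_two, sub_mul, mul_sub, smul_mul_assoc, mul_smul_comm, Matrix.one_mul,
          Matrix.mul_one, ha]
        module)
      obtain ⟨f1, hf1, hf1'⟩ := exists_dot _ h2
      obtain ⟨f2, hf2, hf2'⟩ := exists_dot_pair hw
      have r1 : ∀ v, f1 ⬝ᵥ N *ᵥ v = 0 := fun v => hf1' _ ⟨v, rfl⟩
      set f := f2 + (1 - f2 ⬝ᵥ x0) • f1 with hf
      have b0 : f ⬝ᵥ x0 = 1 := by simp [hf, hf1]
      have b1 : f ⬝ᵥ N *ᵥ w = 1 := by rw [hf, add_dotProduct, smul_dotProduct, r1, hf2']; simp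
      have b2 : f ⬝ᵥ N *ᵥ (N *ᵥ w) = 0 := by
        rw [hf, add_dotProduct, smul_dotProduct, r1, hf2]; simp
      have hw0 : N *ᵥ w ≠ 0 := fun h0 => by simp [h0] at b1
      have z0 : br T (vecMulVec w f) *ᵥ x0 = N *ᵥ w := by
        rw [hZ, br, sub_mulVec, ← mulVec_mulVec, ← mulVec_mulVec, hN0, vmv_mulVec, b0, one_smul]
        simp
      have z1 : br T (vecMulVec w f) *ᵥ (N *ᵥ w) = (1 : ℂ) • (N *ᵥ w) := by
        rw [hZ, br, sub_mulVec, ← mulVec_mulVec, ← mulVec_mulVec, vmv_mulVec, vmv_mulVec, b1, b2]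
        simp
      refine ⟨vecMulVec w f, npar _ (by rwa [vmv_mulVec, b0, one_smul]), sens _ _ 1 ?_ ?_⟩
      · intro p hp
        have h3 : aeval (br T (vecMulVec w f)) (p * X) *ᵥ x0 = 0 := by
          rw [mul_comm, map_mul, ← mulVec_mulVec, hp, mulVec_zero]
        rw [map_mul, ← mulVec_mulVec, aeval_X, z0, aeval_mulVec_eig z1] at h3
        exact (smul_eq_zero.1 h3).resolve_right hw0
      · intro h3
        have := h3 ((X - 1) * X) (by
          rw [map_mul, ← mulVec_mulVec, aeval_X, z0, aeval_mulVec_eig z1]; simp)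
        norm_num at this
  obtain ⟨S, h1, h2⟩ := typeII T hT
  obtain ⟨S', h1', h2'⟩ := typeII T' hT'
  rw [h2, h2', typeI S S' h1 h1']

lemma sym_of_E {x0 : Fin n → ℂ} (hx : x0 ≠ 0) {T : Matrix (Fin n) (Fin n) ℂ} (hT : InE x0 T)
    (S : Matrix (Fin n) (Fin n) ℂ) (c : ℂ) : LS (-br T S) x0 c ↔ LS (br T S) x0 c := by
  obtain ⟨⟨k, hk⟩, r, s, hs, h⟩ := hT
  set N := T - r • (1 : Matrix (Fin n) (Fin n) ℂ) with hN
  have hZ : br T S = br N S := by
    rw [← br_add_smul_one_left N S r, hN, sub_add_cancel]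
  rw [pow_two] at h
  have h1 : (s⁻¹ • N) * N = 1 := by rw [smul_mul_assoc, h, smul_smul, inv_mul_cancel₀ hs, one_smul]
  have h2 : N * (s⁻¹ • N) = 1 := by rw [mul_smul_comm, h, smul_smul, inv_mul_cancel₀ hs, one_smul]
  have h3 : -br N S = (s⁻¹ • N) * br N S * N := by
    have : br N S * N = -(N * br N S) := by
      simp only [br, sub_mul, mul_sub, Matrix.mul_assoc S, ← Matrix.mul_assoc N, h]
      simp
    rw [Matrix.mul_assoc, this, mul_neg, ← Matrix.mul_assoc, h1, Matrix.one_mul]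
  have h4 : N *ᵥ x0 = (k - r) • x0 := by rw [hN, sub_mulVec, hk, smul_mulVec, one_mulVec, sub_smul]
  have h5 : k - r ≠ 0 := by
    intro h0
    have := congrArg ((s⁻¹ • N) *ᵥ ·) h4
    simp only [mulVec_mulVec, h1, one_mulVec, h0, zero_smul, mulVec_zero] at this
    exact hx this
  rw [hZ, h3, LS_conj h1 h2, h4, LS_smul _ _ h5]

theorem result (n : ℕ) (x₀ : Fin n → ℂ) (hx : x₀ ≠ 0)
    (φ : Matrix (Fin n) (Fin n) ℂ → Matrix (Fin n) (Fin n) ℂ) :
    (∀ T S, locSpec (φ T * φ S - φ S * φ T) x₀ = locSpec (T * S - S * T) x₀) ↔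
    ∃ (A : Matrix (Fin n) (Fin n) ℂ) (η ξ : Matrix (Fin n) (Fin n) ℂ → ℂ), IsUnit A ∧
      A *ᵥ x₀ = x₀ ∧ (∀ T, ξ T = 1 ∨ ξ T = -1) ∧
      (∀ T T', ¬ InE x₀ T → ¬ InE x₀ T' → ξ T = ξ T') ∧
      ∀ T, φ T = ξ T • (A * T * A⁻¹) + η T • (1 : Matrix (Fin n) (Fin n) ℂ) := by
  have h0 : (∀ T S, locSpec (φ T * φ S - φ S * φ T) x₀ = locSpec (T * S - S * T) x₀) ↔
      ∀ T S c, LS (br (φ T) (φ S)) x₀ c ↔ LS (br T S) x₀ c := by
    simp only [Set.ext_iff, mem_locSpec, br]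
  rw [h0]
  constructor
  · intro h
    rcases subsingleton_or_nontrivial (Fin n) with hn | hn
    · refine ⟨1, fun T => (φ T - T).trace, fun _ => 1, isUnit_one, one_mulVec _,
        fun _ => Or.inl rfl, fun _ _ _ _ => rfl, fun T => ?_⟩
      ext i j
      obtain rfl := Subsingleton.elim i j
      simp [trace, Fintype.sum_subsingleton _ i]
    have p1 : PM (fun p : Matrix (Fin n) (Fin n) ℂ × Matrix (Fin n) (Fin n) ℂ => p.1) :=
      PM_lin (LinearMap.fst ℂ (Matrix (Fin n) (Fin n) ℂ) (Matrix (Fin n) (Fin n) ℂ))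
    have p2 : PM (fun p : Matrix (Fin n) (Fin n) ℂ × Matrix (Fin n) (Fin n) ℂ => p.2) :=
      PM_lin (LinearMap.snd ℂ (Matrix (Fin n) (Fin n) ℂ) (Matrix (Fin n) (Fin n) ℂ))
    obtain ⟨T0, S0, hk⟩ := exists_kry hx
    obtain ⟨A, B, hAB, hBA, hG⟩ := generic_form φ (gen_traces φ
      ((gen_ne (D := fun p : Matrix (Fin n) (Fin n) ℂ × Matrix (Fin n) (Fin n) ℂ =>
        (kry (br p.1 p.2) x₀).det) (PM.det fun i j => PF_mulVec ((PM_br p1 p2).pow j)
          (fun i => PF_const (x₀ i)) i) ⟨(T0, S0), hk⟩).mono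
        fun p hp c hc => ((h _ _ _).2 (LS_of_kry hp hc)).mem_spectrum))
    have c1 : ∀ X : Matrix (Fin n) (Fin n) ℂ, B * (A * X * B) * A = X := by
      intro X
      calc B * (A * X * B) * A = (B * A) * X * (B * A) := by simp only [Matrix.mul_assoc]
        _ = X := by rw [hBA]; simp
    have c2 : ∀ X : Matrix (Fin n) (Fin n) ℂ, A * (B * X * A) * B = X := by
      intro X
      calc A * (B * X * A) * B = (A * B) * X * (A * B) := by simp only [Matrix.mul_assoc]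
        _ = X := by rw [hAB]; simp
    have hxy : A *ᵥ (B *ᵥ x₀) = x₀ := by rw [mulVec_mulVec, hAB, one_mulVec]
    have hy : B *ᵥ x₀ ≠ 0 := fun h0 => hx (by rw [← hxy, h0, mulVec_zero])
    rcases hG with hG | hG
    · have h' : ∀ T S c, LS (br (B * φ T * A) (B * φ S * A)) (B *ᵥ x₀) c ↔ LS (br T S) x₀ c :=
        fun T S c => by rw [br_conj hAB, LS_conj hBA hAB, hxy, h]
      choose ξ η hξ hψ using pw1 hx hy (fun T => B * φ T * A) h' (hG.mono (by
          rintro S ⟨e, c, he, hS⟩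
          refine ⟨e, c, he, ?_⟩
          simp only [hS, mul_add, add_mul, mul_smul_comm, smul_mul_assoc, c1, Matrix.mul_one,
            hBA]))
      simp only [hψ, br_form] at h'
      obtain ⟨k, hk⟩ := parallel hx fun T S => ⟨_, h' T S⟩
      have hk0 : k ≠ 0 := by rintro rfl; exact hy (by simpa using hk)
      simp only [hk, LS_smul _ _ hk0] at h'
      have hAB' : (k • A) * (k⁻¹ • B) = 1 := by
        rw [smul_mul_assoc, mul_smul_comm, smul_smul, mul_inv_cancel₀ hk0, one_smul, hAB]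
      refine ⟨k • A, η, ξ, ⟨⟨k • A, k⁻¹ • B, hAB', mul_eq_one_comm.1 hAB'⟩, rfl⟩,
        by rw [smul_mulVec, ← mulVec_smul, ← hk, hxy], fun T => mul_self_eq_one_iff.1 (hξ T),
        const_off_E hx ξ hξ h', fun T => ?_⟩
      rw [← c2 (φ T), hψ, Matrix.inv_eq_right_inv hAB']
      simp only [mul_add, add_mul, mul_smul_comm, smul_mul_assoc, Matrix.mul_one, hAB, smul_smul]
      rw [show ξ T * (k⁻¹ * k) = ξ T by field_simp]
    · exfalso
      have hI : Complex.I * Complex.I = -1 := Complex.I_mul_I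
      have h' : ∀ T S c, LS (br ((-Complex.I) • (B * φ T * A)ᵀ) ((-Complex.I) • (B * φ S * A)ᵀ))ᵀ
          (B *ᵥ x₀) c ↔ LS (br T S) x₀ c := fun T S c => by
        rw [← h, ← hxy, ← LS_conj hBA hAB, hxy, ← br_conj hAB, br_smul_smul, neg_mul_neg, hI]
        simp [br, transpose_mul (B * φ T * A)ᵀ, transpose_mul (B * φ S * A)ᵀ,
          -transpose_mul]
      choose ξ η hξ hψ using pw2 hx hy (fun T => (-Complex.I) • (B * φ T * A)ᵀ) h' (hG.mono (by
          rintro S ⟨e, c, he, hS⟩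
          refine ⟨e, -Complex.I * c, he, ?_⟩
          simp only [hS, mul_add, add_mul, mul_smul_comm, smul_mul_assoc, c1, Matrix.mul_one,
            hBA, transpose_add, transpose_smul, transpose_transpose, transpose_one, smul_add,
            smul_smul]
          rw [show -Complex.I * (e * Complex.I) = e by linear_combination -e * hI]))
      simp only [hψ, br_form, transpose_smul] at h'
      exact no_transpose hx hy ξ hξ h'
  · rintro ⟨A, η, ξ, hA, hAx, h1, h2, h3⟩ T S c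
    have hd := (Matrix.isUnit_iff_isUnit_det A).1 hA
    have hBA : A⁻¹ * A = 1 := Matrix.nonsing_inv_mul A hd
    have hAB : A * A⁻¹ = 1 := Matrix.mul_nonsing_inv A hd
    have hBx : A⁻¹ *ᵥ x₀ = x₀ := by
      conv_lhs => rw [← hAx, mulVec_mulVec, hBA, one_mulVec]
    rw [h3, h3, br_form, br_conj hBA, ← smul_mul_assoc, ← mul_smul_comm, LS_conj hAB hBA, hBx]
    by_cases h : ξ T = ξ S
    · rw [← h, mul_self_eq_one_iff.2 (h1 T), one_smul]
    · have h4 : ξ T * ξ S = -1 := by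
        rcases h1 T with b1 | b1 <;> rcases h1 S with b2 | b2 <;> simp_all
      rw [h4, neg_smul, one_smul]
      by_cases hT : InE x₀ T
      · exact sym_of_E hx hT S c
      · have hS : InE x₀ S := by
          by_contra hS
          exact h (h2 T S hT hS)
        have e : br T S = - br S T := by simp [br]
        rw [e, neg_neg]
        exact (sym_of_E hx hS T c).symm

end Pool.Agent.Results.MP_add2b9_al.Classification
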